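import Pool.Agent.W423.NT.Defs

set_option autoImplicit false

/-! Project NT, part BRKQ: rules for the sequences `brkQ M G p μ`. -/

namespace Pool.Agent.W864.NT

open MvPolynomial Pool.Agent.W423.NT
open Pool.Agent.W425.ND (dC tr)

section leib

variable {A : Type} [CommRing A] {D : A → A} (hmul : ∀ p q, D (p * q) = D p * q + p * D q)
  (hnat : ∀ n : ℕ, D (n : A) = 0)
include hmul hnat

lemma D_pow (f : A) (n : ℕ) : D (f ^ n) = (n : A) * f ^ (n - 1) * D f := by
  induction n with
  | zero =>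
    have h1 := hnat 1
    rw [Nat.cast_one] at h1
    simp [h1]
  | succ n ih =>
    rw [pow_succ, hmul, ih]
    rcases Nat.eq_zero_or_pos n with h | h
    · subst h
      simp
    · have e1 : f ^ n = f ^ (n - 1) * f := by
        rw [← pow_succ]
        congr 1
        omega
      rw [Nat.add_sub_cancel, e1]
      push_cast
      ring

lemma D_prod {ι : Type} [DecidableEq ι] (S : Finset ι) (F : ι → A) :
    D (∏ k ∈ S, F k) = ∑ k ∈ S, (∏ l ∈ S.erase k, F l) * D (F k) := by
  induction S using Finset.induction_on with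
  | empty =>
    have h1 := hnat 1
    rw [Nat.cast_one] at h1
    simp [h1]
  | insert a S ha ih =>
    rw [Finset.prod_insert ha, hmul, ih, Finset.sum_insert ha, Finset.erase_insert ha,
      Finset.mul_sum, mul_comm (D (F a))]
    congr 1
    apply Finset.sum_congr rfl
    intro k hk
    have hak : a ≠ k := by
      rintro rfl
      exact ha hk
    rw [Finset.erase_insert_of_ne hak, Finset.prod_insert (fun h => ha (Finset.mem_of_mem_erase h)),
      mul_assoc]

end leib

section aux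

variable {P : ℕ}

/-- raise one entry -/
abbrev up (μ : Fin (P+1) → ℕ) (k : Fin (P+1)) : Fin (P+1) → ℕ := μ + Pi.single k 1

lemma add_single_self (μ : Fin (P+1) → ℕ) (k : Fin (P+1)) : up μ k k = μ k + 1 := by
  simp [up]

lemma add_single_ne (μ : Fin (P+1) → ℕ) {k l : Fin (P+1)} (h : l ≠ k) :
    up μ k l = μ l := by
  simp [up, Pi.single_eq_of_ne h]

lemma desc_single (s μ : Fin (P+1) → ℕ) (k : Fin (P+1)) :
    (s k - μ k) * ∏ l, (s l).descFactorial (μ l) =
      ∏ l, (s l).descFactorial (up μ k l) := by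
  rw [← Finset.mul_prod_erase _ _ (Finset.mem_univ k), ← mul_assoc, ← Nat.descFactorial_succ,
    ← Finset.mul_prod_erase _ (fun l => (s l).descFactorial (up μ k l))
      (Finset.mem_univ k), add_single_self]
  congr 1
  apply Finset.prod_congr rfl
  intro l hl
  rw [add_single_ne μ (Finset.ne_of_mem_erase hl)]

lemma pow_single {A : Type} [CommRing A] (G : Fin (P+1) → A) (s μ : Fin (P+1) → ℕ)
    (k : Fin (P+1)) :
    G k ^ (s k - μ k - 1) * ∏ l ∈ Finset.univ.erase k, G l ^ (s l - μ l) =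
      ∏ l, G l ^ (s l - up μ k l) := by
  rw [← Finset.mul_prod_erase _ (fun l => G l ^ (s l - up μ k l))
      (Finset.mem_univ k), add_single_self]
  congr 1
  apply Finset.prod_congr rfl
  intro l hl
  rw [add_single_ne μ (Finset.ne_of_mem_erase hl)]

/-- the general Leibniz rule -/
lemma D_main {A : Type} [CommRing A] {D : A → A} (hmul : ∀ p q, D (p * q) = D p * q + p * D q)
    (hnat : ∀ n : ℕ, D (n : A) = 0) (G : Fin (P+1) → A) (p : A) (s μ : Fin (P+1) → ℕ) :
    D (p * ((∏ k, (s k).descFactorial (μ k) : ℕ) : A) * ∏ k, G k ^ (s k - μ k)) =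
      D p * ((∏ k, (s k).descFactorial (μ k) : ℕ) : A) * ∏ k, G k ^ (s k - μ k) +
      ∑ k, (p * D (G k)) * ((∏ l, (s l).descFactorial (up μ k l) : ℕ) : A) *
        ∏ l, G l ^ (s l - up μ k l) := by
  rw [hmul, hmul, hnat, mul_zero, add_zero, D_prod hmul hnat, Finset.mul_sum]
  congr 1
  apply Finset.sum_congr rfl
  intro k _
  rw [D_pow hmul hnat, ← desc_single, ← pow_single, Nat.cast_mul]
  ring

end aux

lemma brkQ_add (d N P : ℕ) (R : Type) [CommRing R] (M : Fin (P+1) → Fin d → ℕ)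
    (G : Fin (P+1) → MvPolynomial (Fin N) R) (p q : MvPolynomial (Fin N) R)
    (μ : Fin (P+1) → ℕ) : brkQ M G (p + q) μ = brkQ M G p μ + brkQ M G q μ := by
  funext n e
  rw [addQ_apply]
  unfold brkQ
  rw [add_mul, add_mul, coeff_add]

lemma brkQ_C (d N P : ℕ) (R : Type) [CommRing R] (M : Fin (P+1) → Fin d → ℕ)
    (G : Fin (P+1) → MvPolynomial (Fin N) R) (p : MvPolynomial (Fin N) R) (t : R)
    (μ : Fin (P+1) → ℕ) :
    brkQ M G (C t * p) μ = (C t : MvPolynomial (Fin d ⊕ Fin N) R) • brkQ M G p μ := by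
  funext n e
  rw [smulQ_apply, eval_C]
  unfold brkQ
  rw [mul_assoc, mul_assoc, coeff_C_mul, mul_assoc]

lemma eval_lin (d N P : ℕ) (R : Type) [CommRing R] (M : Fin (P+1) → Fin d → ℕ) (k : Fin (P+1))
    (n : Fin d → ℕ) (e : Fin N →₀ ℕ) :
    eval (evQ n e) (linQ M k : MvPolynomial (Fin d ⊕ Fin N) R) = ((SM M n k : ℕ) : R) := by
  unfold linQ SM
  rw [map_sum, Nat.cast_sum]
  apply Finset.sum_congr rfl
  intro t _
  rw [map_mul, eval_C, eval_X, Nat.cast_mul]
  rfl

lemma brkQ_G (d N P : ℕ) (R : Type) [CommRing R] (M : Fin (P+1) → Fin d → ℕ)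
    (G : Fin (P+1) → MvPolynomial (Fin N) R) (p : MvPolynomial (Fin N) R)
    (μ : Fin (P+1) → ℕ) (k : Fin (P+1)) :
    brkQ M G (p * G k) (μ + Pi.single k 1) =
      (linQ M k - C ((μ k : ℕ) : R) : MvPolynomial (Fin d ⊕ Fin N) R) • brkQ M G p μ := by
  funext n e
  rw [smulQ_apply, map_sub, eval_C, eval_lin]
  unfold brkQ
  rw [← desc_single (SM M n) μ k]
  rcases lt_or_ge (μ k) (SM M n k) with h | h
  · have e1 : (((SM M n k : ℕ) : R) - ((μ k : ℕ) : R)) = ((SM M n k - μ k : ℕ) : R) := by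
      rw [Nat.cast_sub h.le]
    have e2 : ∏ l, G l ^ (SM M n l - μ l) = G k * ∏ l, G l ^ (SM M n l - up μ k l) := by
      rw [← pow_single G (SM M n) μ k,
        ← Finset.mul_prod_erase _ (fun l => G l ^ (SM M n l - μ l)) (Finset.mem_univ k),
        ← mul_assoc, ← pow_succ']
      have : SM M n k - μ k - 1 + 1 = SM M n k - μ k := by omega
      rw [this]
    rw [e1, ← coeff_C_mul, e2]
    congr 1
    have e3 : (C ((SM M n k - μ k : ℕ) : R) : MvPolynomial (Fin N) R) =
        ((SM M n k - μ k : ℕ) : MvPolynomial (Fin N) R) := by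
      simp
    rw [e3, Nat.cast_mul]
    ring
  · have e1 : SM M n k - μ k = 0 := by omega
    rw [e1, Nat.zero_mul, Nat.cast_zero, mul_zero, zero_mul, coeff_zero]
    rcases h.lt_or_eq with h2 | h2
    · have e2 : ∏ l, (SM M n l).descFactorial (μ l) = 0 :=
        Finset.prod_eq_zero (Finset.mem_univ k) (Nat.descFactorial_of_lt h2)
      rw [e2, Nat.cast_zero, mul_zero, zero_mul, coeff_zero, mul_zero]
    · rw [h2, sub_self, zero_mul]

lemma euler (N : ℕ) (R : Type) [CommRing R] (g : MvPolynomial (Fin N) R) (i : Fin N)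
    (e : Fin N →₀ ℕ) : coeff e (X i * pderiv i g) = ((e i : ℕ) : R) * coeff e g := by
  induction g using MvPolynomial.induction_on' with
  | monomial u a =>
    rw [X_mul_pderiv_monomial, coeff_smul, coeff_monomial]
    split_ifs with h
    · subst h
      simp
    · simp
  | add p q hp hq =>
    rw [map_add, mul_add, coeff_add, hp, hq, coeff_add, mul_add]

lemma brkQ_X (d N P : ℕ) (R : Type) [CommRing R] (M : Fin (P+1) → Fin d → ℕ)
    (G : Fin (P+1) → MvPolynomial (Fin N) R) (p : MvPolynomial (Fin N) R)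
    (μ : Fin (P+1) → ℕ) (i : Fin N) :
    (X (Sum.inr i) : MvPolynomial (Fin d ⊕ Fin N) R) • brkQ M G p μ =
      brkQ M G (X i * pderiv i p) μ +
      ∑ k, brkQ M G (p * (X i * pderiv i (G k))) (μ + Pi.single k 1) := by
  funext n e
  rw [smulQ_apply, addQ_apply, eval_X]
  have hs : (∑ k, brkQ M G (p * (X i * pderiv i (G k))) (μ + Pi.single k 1) : FnQ d N R) n e =
      ∑ k, brkQ M G (p * (X i * pderiv i (G k))) (μ + Pi.single k 1) n e := by
    have : ∀ S : Finset (Fin (P+1)),
        (∑ k ∈ S, brkQ M G (p * (X i * pderiv i (G k))) (μ + Pi.single k 1) : FnQ d N R) n e =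
        ∑ k ∈ S, brkQ M G (p * (X i * pderiv i (G k))) (μ + Pi.single k 1) n e := by
      intro S
      induction S using Finset.induction_on with
      | empty => rfl
      | insert a S ha ih => rw [Finset.sum_insert ha, Finset.sum_insert ha, addQ_apply, ih]
    exact this _
  rw [hs]
  show ((e i : ℕ) : R) * _ = _
  unfold brkQ
  rw [← euler, ← coeff_sum, ← coeff_add]
  congr 1
  refine D_main (D := fun g => X i * pderiv i g) ?_ ?_ G p (SM M n) μ
  · intro a b
    show X i * pderiv i (a * b) = _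
    rw [pderiv_mul]
    ring
  · intro m
    show X i * pderiv i (m : MvPolynomial (Fin N) R) = 0
    rw [Derivation.map_natCast, mul_zero]

lemma brkQ_low (d N P : ℕ) (R : Type) [CommRing R] (M : Fin (P+1) → Fin d → ℕ)
    (G : Fin (P+1) → MvPolynomial (Fin N) R) (p : MvPolynomial (Fin N) R)
    (μ : Fin (P+1) → ℕ) (c : Fin N →₀ ℕ) :
    lowQ (fun i => -(c i : ℤ)) (brkQ M G p μ) = brkQ M G (monomial c 1 * p) μ := by
  funext n e
  have hr : brkQ M G (monomial c 1 * p) μ n e = if c ≤ e then 1 * coeff (e - c)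
      (p * ((∏ k, (SM M n k).descFactorial (μ k) : ℕ) : MvPolynomial (Fin N) R) *
        ∏ k, G k ^ (SM M n k - μ k)) else 0 := by
    unfold brkQ
    rw [mul_assoc, mul_assoc, ← mul_assoc p, coeff_monomial_mul']
  rw [hr]
  show (if ∀ i, 0 ≤ (e i : ℤ) + -(c i : ℤ) then
    ((∏ i, ((e i : ℤ) + -(c i : ℤ)).toNat.descFactorial (-(c i : ℤ)).toNat : ℕ) : R) *
      coeff (tr (fun i => -(c i : ℤ)) e)
        (p * ((∏ k, (SM M n k).descFactorial (μ k) : ℕ) : MvPolynomial (Fin N) R) *
        ∏ k, G k ^ (SM M n k - μ k)) else 0) = _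
  have hiff : (∀ i, 0 ≤ (e i : ℤ) + -(c i : ℤ)) ↔ c ≤ e := by
    rw [Finsupp.le_def]
    exact forall_congr' fun i => by omega
  by_cases h : c ≤ e
  · rw [if_pos (hiff.2 h), if_pos h, one_mul]
    have e1 : tr (fun i => -(c i : ℤ)) e = e - c := by
      ext i
      simp only [tr, Finsupp.equivFunOnFinite_symm_apply_apply, Finsupp.tsub_apply]
      omega
    rw [e1]
    have e2 : (∏ i, ((e i : ℤ) + -(c i : ℤ)).toNat.descFactorial (-(c i : ℤ)).toNat) = 1 := by
      apply Finset.prod_eq_one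
      intro i _
      have : (-(c i : ℤ)).toNat = 0 := by omega
      rw [this, Nat.descFactorial_zero]
    rw [e2, Nat.cast_one, one_mul]
  · rw [if_neg (fun h' => h (hiff.1 h')), if_neg h]

section
variable {N : ℕ} {k : Type} [Field k]

lemma coeff_dC (p : MvPolynomial (Fin N) (PowerSeries k)) (e : Fin N →₀ ℕ) :
    coeff e (dC p) = PowerSeries.derivative k (coeff e p) := by
  classical
  unfold dC
  rw [coeff_sum]
  simp only [coeff_monomial]
  rw [Finset.sum_ite_eq']
  split_ifs with h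
  · rfl
  · rw [notMem_support_iff.1 h, map_zero]

lemma dC_mul (p q : MvPolynomial (Fin N) (PowerSeries k)) :
    dC (p * q) = dC p * q + p * dC q := by
  ext1 e
  rw [coeff_dC, coeff_add, coeff_mul, coeff_mul, coeff_mul, map_sum, ← Finset.sum_add_distrib]
  apply Finset.sum_congr rfl
  intro x _
  rw [coeff_dC, coeff_dC, Derivation.leibniz, smul_eq_mul, smul_eq_mul]
  ring

lemma dC_nat (n : ℕ) : dC (n : MvPolynomial (Fin N) (PowerSeries k)) = 0 := by
  ext1 e
  rw [coeff_dC, coeff_zero]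
  have h : (n : MvPolynomial (Fin N) (PowerSeries k)) = C (n : PowerSeries k) := by simp
  rw [h, coeff_C]
  split_ifs
  · rw [Derivation.map_natCast]
  · rw [map_zero]

lemma brkQ_nab (d P : ℕ) (M : Fin (P+1) → Fin d → ℕ)
    (G : Fin (P+1) → MvPolynomial (Fin N) (PowerSeries k))
    (p : MvPolynomial (Fin N) (PowerSeries k)) (μ : Fin (P+1) → ℕ) :
    nabQ (brkQ M G p μ) = brkQ M G (dC p) μ +
      ∑ l, brkQ M G (p * dC (G l)) (μ + Pi.single l 1) := by
  funext n e
  rw [addQ_apply]
  have hs : (∑ l, brkQ M G (p * dC (G l)) (μ + Pi.single l 1) : FnQ d N (PowerSeries k)) n e =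
      ∑ l, brkQ M G (p * dC (G l)) (μ + Pi.single l 1) n e := by
    have : ∀ S : Finset (Fin (P+1)),
        (∑ l ∈ S, brkQ M G (p * dC (G l)) (μ + Pi.single l 1) : FnQ d N (PowerSeries k)) n e =
        ∑ l ∈ S, brkQ M G (p * dC (G l)) (μ + Pi.single l 1) n e := by
      intro S
      induction S using Finset.induction_on with
      | empty => rfl
      | insert a S ha ih => rw [Finset.sum_insert ha, Finset.sum_insert ha, addQ_apply, ih]
    exact this _
  rw [hs]
  have h1 : ∀ p q : MvPolynomial (Fin N) (PowerSeries k), dC (p * q) = dC p * q + p * dC q := dC_mul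
  have h2 : ∀ n : ℕ, dC (n : MvPolynomial (Fin N) (PowerSeries k)) = 0 := dC_nat
  have key := congrArg (coeff e)
    (@D_main P (MvPolynomial (Fin N) (PowerSeries k)) _ dC h1 h2 G p (SM M n) μ)
  rw [coeff_add, coeff_sum, coeff_dC] at key
  exact key

end

theorem taskBRKQ : TaskBRKQ :=
  ⟨brkQ_add, brkQ_C, brkQ_G, brkQ_X, brkQ_low, fun d _ P _ _ M G p μ => brkQ_nab d P M G p μ⟩

end Pool.Agent.W864.NT
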